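import Pool.Agent.H92.S2.LUT2
import Pool.Agent.H56.SFH.DC4
import Pool.Agent.H62.HIL.Eig

/-!
# MP_70ba79_ag, THEOREM S, part 2, row N2Y: general projections of a reduced curve
-/

set_option autoImplicit false

namespace Pool.Agent.H42.SFV

open MvPolynomial
open Pool.Agent.H84.SM (dp cr dt)
open Pool.Agent.H3.SF Pool.Agent.H3.S2 Pool.Agent.H92.SF Pool.Agent.H92.S2

namespace N2Y

/-! ### Polynomials -/

section Poly

variable {k σ : Type} [Field k]

lemma pderiv_deg (i : σ) (p : MvPolynomial σ k) (hp : pderiv i p ≠ 0) :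
    (pderiv i p).totalDegree < p.totalDegree := by
  have h1 : 1 ≤ p.totalDegree := by
    by_contra h0
    have h2 : p.totalDegree = 0 := by omega
    rw [totalDegree_eq_zero_iff_eq_C] at h2
    rw [h2, pderiv_C] at hp
    exact hp rfl
  suffices h3 : (pderiv i p).totalDegree ≤ p.totalDegree - 1 by omega
  rw [totalDegree]
  refine Finset.sup_le fun n hn => ?_
  rw [mem_support_iff, coeff_pderiv] at hn
  have h4 : coeff (n + Finsupp.single i 1) p ≠ 0 := fun h5 => hn (by rw [h5]; simp)
  have h6 := le_totalDegree (mem_support_iff.2 h4)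
  rw [Finsupp.sum_add_index' (fun _ => rfl) (fun _ _ _ => rfl), Finsupp.sum_single_index rfl] at h6
  omega

lemma const_of_pderiv [CharZero k] (f : MvPolynomial σ k) (hp : ∀ s, pderiv s f = 0) :
    f = C (constantCoeff f) := by
  ext n
  classical
  rw [coeff_C]
  by_cases hn : (0 : σ →₀ ℕ) = n
  · rw [if_pos hn, ← hn]; rfl
  · rw [if_neg hn]
    obtain ⟨s, hs⟩ : ∃ s, n s ≠ 0 := by
      by_contra hcon
      push Not at hcon
      exact hn (Finsupp.ext fun s => (hcon s).symm)
    have h1 := congrArg (coeff (n - Finsupp.single s 1)) (hp s)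
    rw [coeff_pderiv, coeff_zero] at h1
    have h2 : n - Finsupp.single s 1 + Finsupp.single s 1 = n := by
      apply tsub_add_cancel_of_le
      rw [Finsupp.single_le_iff]
      omega
    rw [h2] at h1
    rcases mul_eq_zero.1 h1 with h3 | h3
    · exact h3
    · exfalso
      have : (((((n - Finsupp.single s 1 : σ →₀ ℕ) s) + 1 : ℕ)) : k) = 0 := by
        push_cast; exact h3
      exact absurd (Nat.cast_eq_zero.1 this) (by omega)

/-- an ideal which is closed under the partial derivatives is 0 or 1 -/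
lemma one_mem [CharZero k] (I : Ideal (MvPolynomial σ k)) (hI : ∀ s, ∀ q ∈ I, pderiv s q ∈ I) :
    ∀ (n : ℕ) (q : MvPolynomial σ k), q.totalDegree ≤ n → q ∈ I → q ≠ 0 →
      (1 : MvPolynomial σ k) ∈ I := by
  intro n
  have hc : ∀ c : k, c ≠ 0 → (C c : MvPolynomial σ k) ∈ I → (1 : MvPolynomial σ k) ∈ I := by
    intro c hc h
    have h3 := I.mul_mem_left (C c⁻¹) h
    rwa [← map_mul, inv_mul_cancel₀ hc, map_one] at h3
  induction n with
  | zero =>
    intro q hn hq h0
    have h1 : q.totalDegree = 0 := by omega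
    rw [totalDegree_eq_zero_iff_eq_C] at h1
    have h2 : coeff 0 q ≠ 0 := by
      intro h3
      rw [h3, map_zero] at h1
      exact h0 h1
    rw [h1] at hq
    exact hc _ h2 hq
  | succ n ih =>
    intro q hn hq h0
    by_cases h : ∃ s, pderiv s q ≠ 0
    · obtain ⟨s, hs⟩ := h
      have h1 := pderiv_deg s q hs
      exact ih _ (by omega) (hI s q hq) hs
    · push Not at h
      have h1 := const_of_pderiv q h
      refine ih q ?_ hq h0
      rw [h1, totalDegree_C]
      exact Nat.zero_le _

end Poly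

/-! ### A linear form -/

lemma lin_form {k : Type} [Field k] (L : Submodule k (Fin 3 → k)) (hLt : L < ⊤) :
    ∃ Λ : MvPolynomial (Fin 3) k, Λ ≠ 0 ∧ Λ.IsHomogeneous 1 ∧ ∀ c ∈ L, eval c Λ = 0 := by
  obtain ⟨lam, hlam0, hlamL⟩ := Submodule.exists_le_ker_of_lt_top L hLt
  let Λ : MvPolynomial (Fin 3) k := ∑ i, C (lam (Pi.single i 1)) * X i
  have hΛh : Λ.IsHomogeneous 1 := by
    refine IsHomogeneous.sum _ _ _ fun i _ => ?_
    have := (isHomogeneous_C (Fin 3) (lam (Pi.single i 1))).mul (isHomogeneous_X k i)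
    rwa [zero_add] at this
  have hΛe : ∀ c : Fin 3 → k, eval c Λ = lam c := by
    intro c
    have h1 : c = ∑ i, c i • (Pi.single i (1 : k) : Fin 3 → k) := by
      funext j
      rw [Finset.sum_apply, Finset.sum_eq_single j]
      · simp
      · intro i _ hi
        rw [Pi.smul_apply, Pi.single_eq_of_ne (Ne.symm hi), smul_zero]
      · intro hj
        exact absurd (Finset.mem_univ j) hj
    have h2 : lam c = ∑ i, c i * lam (Pi.single i 1) := by
      conv_lhs => rw [h1]
      rw [map_sum]
      exact Finset.sum_congr rfl fun i _ => by rw [map_smul, smul_eq_mul]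
    rw [h2]
    simp only [Λ, map_sum, map_mul, eval_C, eval_X]
    exact Finset.sum_congr rfl fun i _ => mul_comm _ _
  refine ⟨Λ, ?_, hΛh, fun c hc => ?_⟩
  · intro h0
    apply hlam0
    refine LinearMap.ext fun c => ?_
    rw [← hΛe, h0, map_zero]
    rfl
  · rw [hΛe]
    exact hlamL hc

/-! ### Minimal primes -/

lemma min_mul {R : Type} [CommRing R] [IsNoetherianRing R] (I : Ideal R) (hI : I.IsRadical)
    (P : Ideal R) (hP : P ∈ I.minimalPrimes) (q : R) (hq : q ∈ P) : ∃ s, s ∉ P ∧ s * q ∈ I := by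
  classical
  have hf := I.finite_minimalPrimes_of_isNoetherianRing R
  have hPp : P.IsPrime := hP.1.1
  set T : Finset (Ideal R) := hf.toFinset.erase P with hT
  have h1 : ¬ T.inf (fun Q => Q) ≤ P := by
    intro h2
    rw [Ideal.IsPrime.inf_le' hPp] at h2
    obtain ⟨Q, hQ, hQP⟩ := h2
    rw [hT, Finset.mem_erase, Set.Finite.mem_toFinset] at hQ
    exact hQ.1 (le_antisymm hQP (hP.2 hQ.2.1 hQP))
  obtain ⟨s, hs, hsP⟩ := SetLike.not_le_iff_exists.1 h1
  refine ⟨s, hsP, ?_⟩
  rw [← hI.radical, ← Ideal.sInf_minimalPrimes, Ideal.mem_sInf]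
  intro Q hQ
  by_cases h : Q = P
  · rw [h]
    exact P.mul_mem_left _ hq
  · refine Q.mul_mem_right _ ?_
    rw [Submodule.mem_finsetInf] at hs
    exact hs Q (by rw [hT, Finset.mem_erase, Set.Finite.mem_toFinset]; exact ⟨h, hQ⟩)

lemma mem_of_min {R : Type} [CommRing R] (I : Ideal R) (hI : I.IsRadical) (x : R)
    (h : ∀ P ∈ I.minimalPrimes, x ∈ P) : x ∈ I := by
  rw [← hI.radical, ← Ideal.sInf_minimalPrimes, Ideal.mem_sInf]
  intro Q hQ
  exact h Q hQ

/-! ### The ring `Bb` -/

lemma bb_noeth {k F : Type} [Field k] [CharZero k] [Field F] [Algebra k F] {n : ℕ}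
    {u : Fin n → F} (hu : AlgebraicIndependent k u) [FiniteDimensional (kF k u) F] :
    IsNoetherianRing (Bb k u) := by
  classical
  obtain ⟨s, hs1, hs2⟩ := Pool.Agent.H56.SFH.fin_gen hu
  have hu' : ∀ j, Pool.Agent.H3.SF.Itg k u (u j) := fun j =>
    Pool.Agent.H62.HIL.itg_iff.2 (Pool.Agent.H62.HIL.itg_var u j)
  have h1 : (Bb k u).FG := by
    refine ⟨s ∪ Finset.univ.image u, le_antisymm ?_ ?_⟩
    · refine Algebra.adjoin_le ?_
      intro x hx
      rw [Finset.coe_union, Finset.coe_image, Finset.coe_univ, Set.image_univ] at hx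
      rcases hx with hx | ⟨j, rfl⟩
      · exact hs1 x hx
      · exact hu' j
    · intro b hb
      have h2 : Algebra.adjoin k (Set.range u) ≤
          Algebra.adjoin k ((s ∪ Finset.univ.image u : Finset F) : Set F) := by
        refine Algebra.adjoin_mono ?_
        rw [Finset.coe_union, Finset.coe_image, Finset.coe_univ, Set.image_univ]
        exact Set.subset_union_right
      have h3 := hs2 b hb
      clear hb
      induction h3 using Submodule.span_induction with
      | mem x hx =>
        refine Algebra.subset_adjoin ?_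
        rw [Finset.coe_union]
        exact Or.inl hx
      | zero => exact Subalgebra.zero_mem _
      | add x y _ _ hx hy => exact Subalgebra.add_mem _ hx hy
      | smul a x _ hx =>
        rw [Algebra.smul_def]
        exact Subalgebra.mul_mem _ (h2 a.2) hx
  have : Algebra.FiniteType k (Bb k u) := (Subalgebra.fg_iff_finiteType _).1 h1
  exact Algebra.FiniteType.isNoetherianRing k (Bb k u)

lemma itg_aeval {k F : Type} [Field k] [Field F] [Algebra k F] (u : Fin 3 → F)
    (q : MvPolynomial (Fin 3) k) : Itg k u (aeval u q) :=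
  ((aeval u : MvPolynomial (Fin 3) k →ₐ[k] F) : MvPolynomial (Fin 3) k →+* F).isIntegralElem_map
    (x := q)

lemma dd_aeval {k F : Type} [Field k] [Field F] [Algebra k F] (u : Fin 3 → F)
    (dd : Fin 3 → Derivation k F F) (du : ∀ l j, dd l (u j) = if l = j then 1 else 0)
    (l : Fin 3) (p : MvPolynomial (Fin 3) k) : dd l (aeval u p) = aeval u (pderiv l p) := by
  induction p using MvPolynomial.induction_on with
  | C a => simp
  | add p q hp hq => rw [map_add, map_add, hp, hq, map_add, map_add]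
  | mul_X p i hp =>
    rw [map_mul, aeval_X, Derivation.leibniz, hp, du, Derivation.leibniz, pderiv_X]
    simp only [smul_eq_mul, map_add, map_mul, aeval_X]
    by_cases h : l = i
    · subst h
      simp
    · rw [if_neg h, Pi.single_eq_of_ne (Ne.symm h)]
      simp

end N2Y

open N2Y

theorem pf_N2Y (hDAT : T_DAT2) : T_N2Y := by
  intro k F _ _ _ _ _ u dd δ j0 c0 J m G hB
  classical
  obtain ⟨-, -, -, -, -, -, -, -, hJG, -⟩ := hDAT k F u dd δ j0 c0 J m G hB
  have hfd : FiniteDimensional (kF k u) F :=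
    FiniteDimensional.of_finrank_pos (by rw [hB.rank]; exact hB.pos)
  have hNo : IsNoetherianRing (Bb k u) := bb_noeth hB.ind
  let f : MvPolynomial (Fin 3) k →ₐ[k] Bb k u := (aeval u).codRestrict (Bb k u) (itg_aeval u)
  have hf : ∀ q, ((f q : Bb k u) : F) = aeval u q := fun q => rfl
  let GG : Bb k u := ⟨G, hB.itg⟩
  let JJ : Bb k u := f J
  let Gam : Fin 3 → Bb k u := fun l => ⟨aeval u J * dd l G, hJG l⟩
  let I : Ideal (Bb k u) := Ideal.span {GG}
  have hI : ∀ x : Bb k u, x ∈ I ↔ Itg k u ((x : F) / G) := by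
    intro x
    rw [show I = Ideal.span {GG} from rfl, Ideal.mem_span_singleton']
    constructor
    · rintro ⟨a, rfl⟩
      have h1 : ((a * GG : Bb k u) : F) / G = a := mul_div_cancel_right₀ _ hB.ne
      rw [h1]
      exact a.2
    · intro h
      refine ⟨⟨_, h⟩, Subtype.ext ?_⟩
      exact div_mul_cancel₀ _ hB.ne
  have hrad : I.IsRadical := by
    rw [Ideal.isRadical_iff_pow_one_lt 2 (by norm_num)]
    intro r hr
    rw [hI] at hr ⊢
    refine hB.red _ r.2 ?_
    have h1 : ((r ^ 2 : Bb k u) : F) = (r : F) * r := by rw [sq]; rfl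
    rwa [h1] at hr
  have hfin := I.finite_minimalPrimes_of_isNoetherianRing (Bb k u)
  -- the derivations
  have hder : ∀ P ∈ I.minimalPrimes, (∀ l, Gam l ∈ P) → ∀ (l : Fin 3) (q : Bb k u), q ∈ P →
      (⟨aeval u J * dd l q, hB.Jd l q q.2⟩ : Bb k u) ∈ P := by
    intro P hP hG l q hq
    have hPp : P.IsPrime := hP.1.1
    obtain ⟨s, hs, hsq⟩ := min_mul I hrad P hP q hq
    rw [show I = Ideal.span {GG} from rfl, Ideal.mem_span_singleton'] at hsq
    obtain ⟨r, hr⟩ := hsq
    have hGP : GG ∈ P := hP.1.2 (Ideal.subset_span rfl)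
    refine (hPp.mem_or_mem (?_ : s * (⟨aeval u J * dd l q, hB.Jd l q q.2⟩ : Bb k u) ∈ P)).resolve_left
      hs
    have h1 : s * (⟨aeval u J * dd l q, hB.Jd l q q.2⟩ : Bb k u) =
        (r * Gam l + (⟨aeval u J * dd l r, hB.Jd l r r.2⟩ : Bb k u) * GG) -
        (⟨aeval u J * dd l s, hB.Jd l s s.2⟩ : Bb k u) * q := by
      apply Subtype.ext
      have h2 : (r : F) * G = s * q := congrArg (fun x : Bb k u => (x : F)) hr
      have h3 := congrArg (dd l) h2
      rw [Derivation.leibniz, Derivation.leibniz] at h3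
      simp only [smul_eq_mul] at h3
      show (s : F) * (aeval u J * dd l q) =
        ((r : F) * (aeval u J * dd l G) + (aeval u J * dd l r) * G) - (aeval u J * dd l s) * q
      linear_combination (-aeval u J) * h3
    rw [h1]
    exact P.sub_mem (P.add_mem (P.mul_mem_left _ (hG l)) (P.mul_mem_left _ hGP))
      (P.mul_mem_left _ hq)
  -- the claim
  have key : ∀ P ∈ I.minimalPrimes, JJ ∉ P → ∃ l, Gam l ∉ P := by
    intro P hP hJ
    by_contra hcon
    push Not at hcon
    have hPp : P.IsPrime := hP.1.1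
    have hGP : GG ∈ P := hP.1.2 (Ideal.subset_span rfl)
    have h1 : ∀ s, ∀ q ∈ P.comap f, pderiv s q ∈ P.comap f := by
      intro l q hq
      rw [Ideal.mem_comap] at hq ⊢
      have h2 := hder P hP hcon l (f q) hq
      have h3 : (⟨aeval u J * dd l (f q : Bb k u), hB.Jd l _ (f q).2⟩ : Bb k u) =
          JJ * f (pderiv l q) := by
        apply Subtype.ext
        show aeval u J * dd l (aeval u q) = aeval u J * aeval u (pderiv l q)
        rw [dd_aeval u dd hB.du]
      rw [h3] at h2
      exact (hPp.mem_or_mem h2).resolve_left hJ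
    have h2 : P.comap f ≠ ⊥ := by
      let _ : Algebra (MvPolynomial (Fin 3) k) (Bb k u) :=
        (f : MvPolynomial (Fin 3) k →+* Bb k u).toAlgebra
      have h3 : IsIntegral (MvPolynomial (Fin 3) k) GG := by
        obtain ⟨Q, hQ, hQG⟩ := hB.itg
        refine ⟨Q, hQ, Subtype.ext ?_⟩
        have h4 := Polynomial.hom_eval₂ Q (f : MvPolynomial (Fin 3) k →+* Bb k u)
          ((Bb k u).val : Bb k u →+* F) GG
        exact h4.trans hQG
      have h4 : GG ≠ 0 := fun h => hB.ne (congrArg (fun x : Bb k u => (x : F)) h)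
      exact Ideal.comap_ne_bot_of_integral_mem h4 hGP h3
    obtain ⟨q, hq, hq0⟩ := Submodule.exists_mem_ne_zero_of_ne_bot h2
    have h3 := one_mem (P.comap f) h1 _ q le_rfl hq hq0
    rw [Ideal.mem_comap, map_one] at h3
    exact hPp.ne_top ((Ideal.eq_top_iff_one P).2 h3)
  -- the linear forms
  have hΛ : ∀ P : Ideal (Bb k u), ∃ Λ : MvPolynomial (Fin 3) k, P ∈ I.minimalPrimes →
      Λ ≠ 0 ∧ Λ.IsHomogeneous 1 ∧ (JJ ∉ P → ∀ a b : k, eval ![a, b, 1] Λ ≠ 0 →
        a • Gam 0 + b • Gam 1 + Gam 2 ∉ P) := by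
    intro P
    by_cases hP : P ∈ I.minimalPrimes
    · by_cases hJ : JJ ∈ P
      · exact ⟨X 0, fun _ => ⟨X_ne_zero 0, isHomogeneous_X k 0, fun h => absurd hJ h⟩⟩
      · obtain ⟨l, hl⟩ := key P hP hJ
        let φ : (Fin 3 → k) →ₗ[k] Bb k u := Fintype.linearCombination k Gam
        let L : Submodule k (Fin 3 → k) := (P.restrictScalars k).comap φ
        have hLmem : ∀ c : Fin 3 → k, c ∈ L ↔ ∑ i, c i • Gam i ∈ P := fun c => Iff.rfl
        have hLt : L < ⊤ := by
          refine lt_of_le_of_ne le_top fun hL => hl ?_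
          have h1 : Pi.single l (1 : k) ∈ L := by rw [hL]; trivial
          rw [hLmem] at h1
          have h2 : ∑ i, (Pi.single l (1 : k) : Fin 3 → k) i • Gam i = Gam l := by
            rw [Finset.sum_eq_single l]
            · rw [Pi.single_eq_same, one_smul]
            · intro i _ hi
              rw [Pi.single_eq_of_ne hi, zero_smul]
            · intro hi
              exact absurd (Finset.mem_univ l) hi
          rw [h2] at h1
          exact h1
        obtain ⟨Λ, h0, hh, he⟩ := lin_form L hLt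
        refine ⟨Λ, fun _ => ⟨h0, hh, fun _ a b hab hmem => hab (he _ ?_)⟩⟩
        rw [hLmem, Fin.sum_univ_three]
        show a • Gam 0 + b • Gam 1 + (1 : k) • Gam 2 ∈ P
        rw [one_smul]
        exact hmem
    · exact ⟨0, fun h => absurd h hP⟩
  choose Λ hΛ using hΛ
  refine ⟨∑ P ∈ hfin.toFinset, 1, ∏ P ∈ hfin.toFinset, Λ P, ?_, ?_, ?_⟩
  · rw [Finset.prod_ne_zero_iff]
    intro P hP
    exact (hΛ P ((Set.Finite.mem_toFinset _).1 hP)).1
  · refine IsHomogeneous.prod _ _ _ fun P hP => ?_
    exact (hΛ P ((Set.Finite.mem_toFinset _).1 hP)).2.1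
  · intro a b hab z hz hG
    rw [map_prod, Finset.prod_ne_zero_iff] at hab
    let zz : Bb k u := ⟨z, hz⟩
    let gg : Bb k u := a • Gam 0 + b • Gam 1 + Gam 2
    have h1 : gg * zz ∈ I := by
      rw [hI]
      have h2 : ((gg * zz : Bb k u) : F) = aeval u J * dch a b dd 2 G * z := by
        show (a • (aeval u J * dd 0 G) + b • (aeval u J * dd 1 G) + aeval u J * dd 2 G) * z =
          aeval u J * (dd 2 G + a • dd 0 G + b • dd 1 G) * z
        simp only [Algebra.smul_def]
        ring
      rw [h2]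
      exact hG
    have h3 : JJ * zz ∈ I := by
      refine mem_of_min I hrad _ fun P hP => ?_
      by_cases hJ : JJ ∈ P
      · exact P.mul_mem_right _ hJ
      · have hPp : P.IsPrime := hP.1.1
        have h4 := (hΛ P hP).2.2 hJ a b (hab P ((Set.Finite.mem_toFinset _).2 hP))
        exact P.mul_mem_left _ ((hPp.mem_or_mem (hP.1.2 h1)).resolve_left h4)
    rw [hI] at h3
    exact h3

end Pool.Agent.H42.SFV
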