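import Pool.Agent.H92.S2.LUT2
import Pool.Agent.H68.SFU.TRX

/-!
# MP_70ba79_ag, THEOREM S, part 2, row TRX2: change of coordinates
-/

set_option autoImplicit false

namespace Pool.Agent.H42.SFV

open MvPolynomial
open Pool.Agent.H84.SM (dp cr dt)
open Pool.Agent.H3.SF Pool.Agent.H3.S2 Pool.Agent.H92.SF Pool.Agent.H92.S2

namespace TRX2

open Pool.Agent.H68.SFU.TRX

variable {k F : Type} [Field k] [Field F] [Algebra k F]

variable {u : Fin 3 → F} {E : Derivation k F F}

lemma sbin {m t : ℤ} {c : ℕ} {g : Fin 3 → F} {x y s : F} (hx : P k u E 1 x) (hy : P k u E 1 y)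
    (hxS : Pool.Agent.H68.SFU.TRX.S u E m g (c + t) (s * x ^ c))
    (hyS : Pool.Agent.H68.SFU.TRX.S u E m g (c + t) (s * y ^ c)) :
    Pool.Agent.H68.SFU.TRX.S u E m g (((2 * c : ℕ) : ℤ) + t) (s * (x + y) ^ (2 * c)) := by
  rw [add_pow, Finset.mul_sum]
  refine Finset.sum_induction _
    (fun z => Pool.Agent.H68.SFU.TRX.S u E m g (((2 * c : ℕ) : ℤ) + t) z)
    (fun _ _ h h' => h.add h') S.zero fun n hn => ?_
  rw [Finset.mem_range] at hn
  rcases le_or_gt c n with hc | hc
  · have h1 : s * (x ^ n * y ^ (2 * c - n) * ((2 * c).choose n : F)) =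
        (x ^ (n - c) * y ^ (2 * c - n) * ((2 * c).choose n : F)) * (s * x ^ c) := by
      have h2 : x ^ n = x ^ (n - c) * x ^ c := by rw [← pow_add]; congr 1; omega
      rw [h2]; ring
    rw [h1]
    have h3 := hxS.mul (((hx.pow (n - c)).mul (hy.pow (2 * c - n))).cast ((2 * c).choose n))
    have h4 : (((n - c : ℕ) : ℤ) + ((2 * c - n : ℕ) : ℤ)) + ((c : ℤ) + t) =
        ((2 * c : ℕ) : ℤ) + t := by
      omega
    rwa [h4] at h3
  · have h1 : s * (x ^ n * y ^ (2 * c - n) * ((2 * c).choose n : F)) =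
        (x ^ n * y ^ (c - n) * ((2 * c).choose n : F)) * (s * y ^ c) := by
      have h2 : y ^ (2 * c - n) = y ^ (c - n) * y ^ c := by rw [← pow_add]; congr 1; omega
      rw [h2]; ring
    rw [h1]
    have h3 := hyS.mul (((hx.pow n).mul (hy.pow (c - n))).cast ((2 * c).choose n))
    have h4 : (((n : ℕ) : ℤ) + ((c - n : ℕ) : ℤ)) + ((c : ℤ) + t) = ((2 * c : ℕ) : ℤ) + t := by
      omega
    rwa [h4] at h3

lemma ssub {m t : ℤ} {c : ℕ} {g : Fin 3 → F} {x y s : F} (a : k) (hx : P k u E 1 x)
    (hy : P k u E 1 y)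
    (hxS : Pool.Agent.H68.SFU.TRX.S u E m g (c + t) (s * x ^ c))
    (hyS : Pool.Agent.H68.SFU.TRX.S u E m g (c + t) (s * y ^ c)) :
    Pool.Agent.H68.SFU.TRX.S u E m g (((2 * c : ℕ) : ℤ) + t)
      (s * (x - algebraMap k F a * y) ^ (2 * c)) := by
  have h1 : P k u E 1 (algebraMap k F (-a) * y) := by
    have h := (P.const (u := u) (E := E) (-a)).mul hy
    rwa [zero_add] at h
  have h2 : Pool.Agent.H68.SFU.TRX.S u E m g (c + t)
      (s * (algebraMap k F (-a) * y) ^ c) := by
    rw [mul_pow, ← map_pow]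
    have h := hyS.mul (P.const (u := u) (E := E) ((-a) ^ c))
    rw [zero_add] at h
    have h5 : s * (algebraMap k F ((-a) ^ c) * y ^ c) =
        algebraMap k F ((-a) ^ c) * (s * y ^ c) := by ring
    rw [h5]
    exact h
  have h3 := sbin hx h1 hxS h2
  have h4 : x + algebraMap k F (-a) * y = x - algebraMap k F a * y := by
    rw [map_neg]; ring
  rwa [h4] at h3

end TRX2

open Pool.Agent.H68.SFU.TRX TRX2

theorem pf_TRX2 (hDAT : T_DAT2) : T_TRX2 := by
  intro k F _ _ _ _ _ u dd δ j0 c0 J m G hB a b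
  obtain ⟨-, -, -, -, hu1, -, -, -, -, -⟩ := hDAT k F u dd δ j0 c0 J m G hB
  have hkF := kF_uch a b u
  have hu : ∀ i, P k u (eu u dd) 1 (u i) := fun i => ⟨itg_u u i, hu1 i⟩
  refine ⟨?_, ?_, itg_uch a b u, hkF, aeval_sch a b u, eu_uch a b u dd⟩
  · have hsm : ∀ (c : k) (x : F), Itg k u x → Itg k u (c • x) := fun c x hx =>
      (Bb k u).smul_mem hx c
    have hadd : ∀ (x y : F), Itg k u x → Itg k u y → Itg k u (x + y) := fun x y hx hy =>
      (Bb k u).add_mem hx hy
    refine
      { ind := ?_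
        rank := ?_
        pos := hB.pos
        du := ?_
        comm := ?_
        Jh := sch_hom a b hB.Jh
        J0 := ?_
        Jd := ?_
        neg := fun t ht => by rw [BB_uch]; exact hB.neg t ht
        fin := fun t => by rw [BB_uch]; exact hB.fin t
        up := fun t => by rw [BB_uch]; exact hB.up t
        lo := fun t ht => by rw [BB_uch]; exact hB.lo t ht
        big := hB.big
        ne := hB.ne
        itg := (itg_uch a b u G).mpr hB.itg
        hom := (hm_uch a b u dd m G).mpr hB.hom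
        red := fun x hx hxy => by
          rw [itg_uch] at hx hxy
          rw [itg_uch]
          exact hB.red x hx hxy }
    · intro p q hpq
      have h1 : aeval u (sch (-a) (-b) p) = aeval u (sch (-a) (-b) q) := by
        rw [← aeval_uch, ← aeval_uch]
        exact hpq
      have h2 := hB.ind h1
      have h3 := congrArg (sch a b) h2
      rwa [sch_sch, sch_sch] at h3
    · rw [hkF]
      exact hB.rank
    · have h := hB.du
      have hc : ∀ (l : Fin 3) (c : k), dd l (algebraMap k F c) = 0 :=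
        fun l c => Derivation.map_algebraMap _ _
      intro l j
      fin_cases l <;> fin_cases j <;>
        simp [dch, uch, h, hc, Derivation.leibniz, Algebra.smul_def]
    · have hs : ∀ (l : Fin 3) (c : k) (x : F), dd l (c • x) = c • dd l x :=
        fun l c x => (dd l).map_smul c x
      have h := hB.comm
      intro l j x
      fin_cases l <;> fin_cases j
      · rfl
      · exact h 0 1 x
      · show dd 0 (dd 2 x + a • dd 0 x + b • dd 1 x) =
          dd 2 (dd 0 x) + a • dd 0 (dd 0 x) + b • dd 1 (dd 0 x)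
        rw [map_add, map_add, hs, hs, h 0 2, h 0 1]
      · exact h 1 0 x
      · rfl
      · show dd 1 (dd 2 x + a • dd 0 x + b • dd 1 x) =
          dd 2 (dd 1 x) + a • dd 0 (dd 1 x) + b • dd 1 (dd 1 x)
        rw [map_add, map_add, hs, hs, h 1 2, h 1 0]
      · show dd 2 (dd 0 x) + a • dd 0 (dd 0 x) + b • dd 1 (dd 0 x) =
          dd 0 (dd 2 x + a • dd 0 x + b • dd 1 x)
        rw [map_add, map_add, hs, hs, h 0 2, h 0 1]
      · show dd 2 (dd 1 x) + a • dd 0 (dd 1 x) + b • dd 1 (dd 1 x) =
          dd 1 (dd 2 x + a • dd 0 x + b • dd 1 x)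
        rw [map_add, map_add, hs, hs, h 1 2, h 1 0]
      · rfl
    · intro h0
      apply hB.J0
      have h := congrArg (sch (-a) (-b)) h0
      rwa [sch_sch', map_zero] at h
    · intro l x hx
      rw [itg_uch] at hx ⊢
      rw [aeval_sch]
      fin_cases l
      · exact hB.Jd 0 x hx
      · exact hB.Jd 1 x hx
      · show Itg k u (aeval u J * (dd 2 x + a • dd 0 x + b • dd 1 x))
        rw [mul_add, mul_add, mul_smul_comm, mul_smul_comm]
        exact hadd _ _ (hadd _ _ (hB.Jd 2 x hx) (hsm a _ (hB.Jd 0 x hx))) (hsm b _ (hB.Jd 1 x hx))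
  · intro sg T hC
    refine
      { ne := hC.ne
        itg := (itg_uch a b u G).mpr hC.itg
        hom := (hm_uch a b u dd m G).mpr hC.hom
        Sh := sch_hom a b hC.Sh
        S0 := ?_
        cert := ?_
        red := fun x hx hxy => by
          rw [itg_uch] at hx hxy
          rw [itg_uch]
          exact hC.red x hx hxy }
    · intro h0
      apply hC.S0
      have h := congrArg (sch (-a) (-b)) h0
      rwa [sch_sch', map_zero] at h
    · obtain ⟨c, hc⟩ := hC.cert
      have hS : ∀ i, Pool.Agent.H68.SFU.TRX.S u (eu u dd) m (fun l => dd l G) (c + sg)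
          (aeval u T * u i ^ c) := by
        intro i
        obtain ⟨e, he, h1⟩ := hc i
        refine ⟨e, fun l => ⟨(he l).1, ?_⟩, h1⟩
        have h2 := (he l).2
        have h3 : (c : ℤ) + 1 + sg - m = (c : ℤ) + sg + 1 - m := by ring
        rwa [h3] at h2
      have hT : ∀ i, Pool.Agent.H68.SFU.TRX.S u (eu u dd) m (fun l => dd l G)
          (((2 * c : ℕ) : ℤ) + sg) (aeval u T * uch a b u i ^ (2 * c)) := by
        intro i
        fin_cases i
        · exact ssub a (hu 0) (hu 2) (hS 0) (hS 2)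
        · exact ssub b (hu 1) (hu 2) (hS 1) (hS 2)
        · have h1 := (hS 2).mul ((hu 2).pow c)
          have h2 : (c : ℤ) + (c + sg) = ((2 * c : ℕ) : ℤ) + sg := by push_cast; ring
          have h3 : u 2 ^ c * (aeval u T * u 2 ^ c) = aeval u T * uch a b u 2 ^ (2 * c) := by
            show u 2 ^ c * (aeval u T * u 2 ^ c) = aeval u T * u 2 ^ (2 * c)
            have h4 : u 2 ^ (2 * c) = u 2 ^ c * u 2 ^ c := by rw [← pow_add]; congr 1; ring
            rw [h4]; ring
          rw [h2, h3] at h1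
          exact h1
      refine ⟨2 * c, fun i => ?_⟩
      obtain ⟨e, he, h1⟩ := (hT i).change a b
      refine ⟨e, fun l => ⟨(he l).1, ?_⟩, ?_⟩
      · have h2 := (he l).2
        have h3 : ((2 * c : ℕ) : ℤ) + sg + 1 - m = ((2 * c : ℕ) : ℤ) + 1 + sg - m := by ring
        rwa [h3] at h2
      · rw [aeval_sch]
        exact h1

end Pool.Agent.H42.SFV
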